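import Pool.Agent.Y116.MC.Two

/-!
# The Mumford–Tate conjecture for second cohomology and systems of bilinear equations
-/

set_option autoImplicit false

open CategoryTheory Limits MonoidalCategory AlgebraicGeometry Pool.Agent.Y116.UV
open Pool.Agent.Y101.Th Pool.Agent.Y101.Th.RX Pool.Agent.Y116.MC

namespace Pool.Agent.Results.MP_6369ef_ag.BilinearEquations

universe v u

attribute [local instance] Abelian.hasFiniteBiproducts

variable {𝒜 : Type u} [Category.{v} 𝒜] [Abelian 𝒜] [MonoidalCategory 𝒜]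
  {F : Type} [Field F] {V : 𝒜 ⥤ ModuleCat.{0} F} {T : Coh 𝒜}

/-- **The Mumford–Tate conjecture for `H^2(X)(1)` and systems of bilinear equations.** -/
theorem result [CharZero F] [V.Monoidal] [V.Additive] (hT : IsCoh V T) {L' : 𝒜} {w : Der V}
    (hw : IsTwo V T L' w) {𝔤 𝔥 : Set (Der V)} (h𝔤 : Stable w 𝔤) (h𝔥 : Stable w 𝔥) :
    List.TFAE [
      ∀ X : Sch QBar, SmProj X → IrreducibleSpace X.left → Agree 𝔤 𝔥 (T.H X 2 ⊗ L'),
      ∀ X : Sch QBar, SmProj X → IrreducibleSpace X.left →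
        topologicalKrullDim X.left ≤ (2 : ℕ) → Agree 𝔤 𝔥 (T.H X 2 ⊗ L'),
      ∀ X : Sch QBar, SmProj X → topologicalKrullDim X.left ≤ (2 : ℕ) →
        ∀ n, Agree 𝔤 𝔥 (T.tot X n),
      ∀ N, Agree 𝔤 𝔥 (T.M N 5),
      ∀ n, ∃ N, n ≤ N ∧ Agree 𝔤 𝔥 (T.M N 5)] := by
  tfae_have 1 → 2 := fun h X hX hi _ => h X hX hi
  tfae_have 2 → 3 := by
    intro h X hX hd n
    obtain ⟨Z, hZ⟩ := tot_two hT hw X hX hd n
    obtain ⟨S, hS, hS', hSd, hf⟩ := hw.hyperplane Z.1 Z.2.1 Z.2.2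
    exact agree_of_gen ((Gen.fac hf Gen.base).trans hZ)
      (untwist hw h𝔤 h𝔥 S hS (h S hS hS' hSd))
  tfae_have 3 → 4 := by
    intro h N
    obtain ⟨X, hX, hXd, n, hn⟩ := M_tot hT (d := 2) (by omega) N
    exact agree_of_gen hn (h X hX hXd n)
  tfae_have 4 → 5 := fun h n => ⟨n, le_rfl, h n⟩
  tfae_have 5 → 1 := by
    intro h X hX hi
    obtain ⟨S, hS, _, hSd, hf⟩ := hw.hyperplane X hX hi
    obtain ⟨N, hN⟩ := tot_gen_M hT 2 S hS hSd 3
    obtain ⟨N', hN', h'⟩ := h N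
    refine agree_of_gen ?_ h'
    refine Gen.tensor (Gen.fac hf ?_) (gen_L' hw hT (gen_M_L _ _))
    exact ((M_mono hN' le_rfl).trans hN).trans (gen_tot_H hT hS 2 3 (by norm_num))
  tfae_finish

end Pool.Agent.Results.MP_6369ef_ag.BilinearEquations
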