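import Mathlib
import Pool.Agent.Y127.C.Jordan

/-!
# The Mumford-Tate conjecture for the second cohomology: degenerations of type III

`X` is a smooth projective variety over a finitely generated field `k`, `Γ` the absolute Galois
group of `k`.  Let `N` be the Neron-Severi group tensored with `ℚ` and `T` its orthogonal
complement, so that `H^2(X)(1) = N ⊕ T` (over `ℚ`), and let `T = T_1 ⊕ ... ⊕ T_r` be an orthogonal
decomposition of the polarised Hodge structure `T` (`c a` says to which summand the `a`-th basis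
vector of `T` belongs; for `r = 1` there is no decomposition).

The Hodge structure `T` is an element of `HS n` (the starting files): it consists of the
intersection form `T.Q` and the Hodge operator `T.x`, which is `1`, `0`, `-1` on the pieces of type
`(1,-1)`, `(0,0)`, `(-1,1)`.  The condition `T.Big c p q` (the starting files) says: the only
endomorphisms of the rational Hodge structure `T` are those that are a rational scalar on each
`T_i`, the Hodge numbers of `T_i` are `(p i, q i, p i)`, and either `p i = 1` and `q i` is not `0`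
or `2`, or `2 (p i)^2 ((p i)^2 + 1) < (q i - 2 p i) (q i + p i)`.

Instead of nodal degenerations (reflections) we use degenerations of type III: an element of `Γ`
which acts on `T_i ⊗ ℚ_ℓ` as a unipotent element with Jordan blocks of lengths `3, 1, ..., 1`.
-/

set_option autoImplicit false

namespace Pool.Agent.Results.MP_6369ef_ag.CuspPlaces

open MvPolynomial Matrix
open Pool.Agent.W544.PG (HS BD)

noncomputable section

section groups

variable {ι : Type} [Fintype ι] [DecidableEq ι]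

/-- The value of a rational polynomial in the entries at a matrix. -/
def value {R : Type} [CommRing R] [Algebra ℚ R] (g : Matrix ι ι R)
    (f : MvPolynomial (ι × ι) ℚ) : R :=
  aeval (fun q : ι × ι => g q.1 q.2) f

/-- `G` is the set of complex points of an algebraic subgroup over `ℚ` of the general linear
group. -/
def IsQGroup (G : Set (Matrix ι ι ℂ)) : Prop :=
  (∃ P : Set (MvPolynomial (ι × ι) ℚ), ∀ g, g ∈ G ↔ g.det ≠ 0 ∧ ∀ f ∈ P, value g f = 0) ∧
  1 ∈ G ∧ (∀ a ∈ G, ∀ b ∈ G, a * b ∈ G) ∧ ∀ a ∈ G, a⁻¹ ∈ G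

/-- The complex points of the Mumford-Tate group: the smallest algebraic subgroup over `ℚ` which
contains `h z` for all `z`. -/
def mumfordTate (h : ℂ → Matrix ι ι ℂ) : Set (Matrix ι ι ℂ) :=
  {g | ∀ G, IsQGroup G → (∀ z, z ≠ 0 → h z ∈ G) → g ∈ G}

/-- The points of the Mumford-Tate group over a field `R`. -/
def InMumfordTate {R : Type} [Field R] [Algebra ℚ R] (h : ℂ → Matrix ι ι ℂ)
    (g : Matrix ι ι R) : Prop :=
  ∀ f : MvPolynomial (ι × ι) ℚ, (∀ m ∈ mumfordTate h, value m f = 0) → value g f = 0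

variable {ℓ : ℕ} [Fact ℓ.Prime] {Γ : Type} [Group Γ]

/-- The points of the identity component of the Zariski closure of `ρ(Γ)` over the algebraic
closure of `ℚ_ℓ`: a polynomial that vanishes on the image of a subgroup of finite index vanishes
at `g`. -/
def InMonodromy (ρ : Γ →* Matrix ι ι ℚ_[ℓ]) (g : Matrix ι ι (AlgebraicClosure ℚ_[ℓ])) : Prop :=
  ∀ f : MvPolynomial (ι × ι) (AlgebraicClosure ℚ_[ℓ]),
    (∃ Δ : Subgroup Γ, Δ.FiniteIndex ∧ ∀ s ∈ Δ,
      aeval (fun q : ι × ι => algebraMap ℚ_[ℓ] (AlgebraicClosure ℚ_[ℓ]) (ρ s q.1 q.2)) f = 0) →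
    aeval (fun q : ι × ι => g q.1 q.2) f = 0

/-- The Mumford-Tate conjecture: the two groups agree over `ℚ_ℓ`. -/
def MumfordTateConjecture (h : ℂ → Matrix ι ι ℂ) (ρ : Γ →* Matrix ι ι ℚ_[ℓ]) : Prop :=
  ∀ g : Matrix ι ι (AlgebraicClosure ℚ_[ℓ]), g.det ≠ 0 → (InMonodromy ρ g ↔ InMumfordTate h g)

end groups

variable {s n r : ℕ}

/-- The action of `ℂ^×` on `H^2(X)(1) = N ⊕ T`: it is trivial on `N` and multiplication by
`conj z / z`, `1`, `z / conj z` on the parts of `T` where `T.x` is `1`, `0`, `-1`. -/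
def hodge (s : ℕ) (T : HS n) (z : ℂ) : Matrix (Fin s ⊕ Fin n) (Fin s ⊕ Fin n) ℂ :=
  fromBlocks 1 0 0 (1 + ((starRingEnd ℂ z / z - 1) / 2) • (T.x * T.x + T.x) +
    ((z / starRingEnd ℂ z - 1) / 2) • (T.x * T.x - T.x))

variable {ℓ : ℕ} [Fact ℓ.Prime] {Γ : Type} [Group Γ]

/-- An `ℓ`-adic integral matrix as a matrix over `ℚ_ℓ`. -/
def rat (g : Matrix (Fin n) (Fin n) ℤ_[ℓ]) : Matrix (Fin n) (Fin n) ℚ_[ℓ] :=
  g.map (algebraMap ℤ_[ℓ] ℚ_[ℓ])

/-- The representation `α ⊕ β` of the Galois group on `N ⊕ T`. -/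
def galois (α : Γ →* Matrix (Fin s) (Fin s) ℚ_[ℓ]) (β : Γ →* Matrix (Fin n) (Fin n) ℤ_[ℓ]) :
    Γ →* Matrix (Fin s ⊕ Fin n) (Fin s ⊕ Fin n) ℚ_[ℓ] where
  toFun σ := fromBlocks (α σ) 0 0 (rat (β σ))
  map_one' := (Pool.Agent.Y95.MT.tot α β).map_one
  map_mul' := (Pool.Agent.Y95.MT.tot α β).map_mul

/-- The intersection form over `ℚ_ℓ`. -/
def form (ℓ : ℕ) [Fact ℓ.Prime] (T : HS n) : Matrix (Fin n) (Fin n) ℚ_[ℓ] :=
  T.Q.map (algebraMap ℚ ℚ_[ℓ])

/-- The space `T_i ⊗ ℚ_ℓ`. -/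
def part (ℓ : ℕ) [Fact ℓ.Prime] (c : Fin n → Fin r) (i : Fin r) :
    Submodule ℚ_[ℓ] (Fin n → ℚ_[ℓ]) where
  carrier := {w | ∀ a, c a ≠ i → w a = 0}
  zero_mem' := fun _ _ => rfl
  add_mem' := by
    intro x y hx hy a ha
    rw [Pi.add_apply, hx a ha, hy a ha, add_zero]
  smul_mem' := by
    intro z x hx a ha
    rw [Pi.smul_apply, hx a ha, smul_zero]

/-- A cusp place for `T_i`: some `σ` in `Γ` acts trivially on the other `T_j ⊗ ℚ_ℓ`, and on
`T_i ⊗ ℚ_ℓ` as a unipotent element with Jordan blocks of lengths `3, 1, ..., 1`.  This is the action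
of (a power of) an element of inertia at a place of `k` where `T_i` has a degeneration of
type III with monodromy logarithm of rank two. -/
def CuspPlace (c : Fin n → Fin r) (β : Γ →* Matrix (Fin n) (Fin n) ℤ_[ℓ]) (i : Fin r) : Prop :=
  ∃ σ : Γ, (∀ a b, c b ≠ i → rat (β σ) a b = (1 : Matrix (Fin n) (Fin n) ℚ_[ℓ]) a b) ∧
    (rat (β σ) - 1) ^ 3 = 0 ∧ (rat (β σ) - 1) ^ 2 ≠ 0 ∧ (rat (β σ) - 1).rank = 2

/-- `T_i ⊗ ℚ_ℓ` is irreducible under all subgroups of `Γ` of index at most `dim T_i`. -/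
def Irreducible (c : Fin n → Fin r) (β : Γ →* Matrix (Fin n) (Fin n) ℤ_[ℓ]) (i : Fin r) : Prop :=
  ∀ Δ : Subgroup Γ, Δ.index ≠ 0 → Δ.index ≤ (Finset.univ.filter fun a => c a = i).card →
    ∀ W : Submodule ℚ_[ℓ] (Fin n → ℚ_[ℓ]), W ≤ part ℓ c i →
    (∀ σ ∈ Δ, ∀ w ∈ W, rat (β σ) *ᵥ w ∈ W) → W = ⊥ ∨ W = part ℓ c i

/-- **The Mumford-Tate conjecture for `H^2(X)` at `ℓ` holds if and only if every `T_i ⊗ ℚ_ℓ` is
irreducible under the subgroups of index at most `dim T_i`**, for `X` with a cusp place for every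
`T_i`. -/
theorem result (T : HS n) (c : Fin n → Fin r) (p q : Fin r → ℕ) (hT : T.Big c p q)
    (α : Γ →* Matrix (Fin s) (Fin s) ℚ_[ℓ]) (hα : (Set.range α).Finite)
    (β : Γ →* Matrix (Fin n) (Fin n) ℤ_[ℓ])
    (hβ : ∀ σ, (rat (β σ))ᵀ * form ℓ T * rat (β σ) = form ℓ T) (hc : ∀ σ, BD c (β σ))
    (hcusp : ∀ i, CuspPlace c β i) :
    MumfordTateConjecture (hodge s T) (galois α β) ↔ ∀ i, Irreducible c β i :=
  Pool.Agent.Y127.C.main_N' (T := T) (c := c) (p := p) (q := q) hT hα ⟨hβ, hc⟩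
    fun i => (hcusp i).imp fun σ h => ⟨Pool.Agent.Y127.C.fin_order hα σ, h⟩

end

end Pool.Agent.Results.MP_6369ef_ag.CuspPlaces
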