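import Mathlib
import Pool.Agent.Y95.ZG.Fin

/-!
# The Mumford-Tate conjecture for the second cohomology is a statement on classes of degree four

`X` is a smooth projective variety over a finitely generated field `k`, `Γ` the absolute Galois
group of `k`.  Let `N` be the Neron-Severi group tensored with `ℚ` and `T` its orthogonal
complement, so that `H^2(X)(1) = N ⊕ T` (over `ℚ`), and let `T = T_1 ⊕ ... ⊕ T_r` be an orthogonal
decomposition of the polarised Hodge structure `T` (`c a` says to which summand the `a`-th basis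
vector of `T` belongs; for `r = 1` there is no decomposition).

The Hodge structure `T` is an element of `HS n` (the starting files): it consists of the
intersection form `T.Q` and the Hodge operator `T.x`, which is `1`, `0`, `-1` on the pieces of type
`(1,-1)`, `(0,0)`, `(-1,1)`.  The condition `T.Big c p q` (the starting files) says: the only
endomorphisms of the rational Hodge structure `T` are those that are a rational scalar on each
`T_i`, the Hodge numbers of `T_i` are `(p i, q i, p i)`, and either `p i = 1` and `q i` is not `0`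
or `2`, or `2 (p i)^2 ((p i)^2 + 1) < (q i - 2 p i) (q i + p i)`.

The theorem: suppose in addition that `p i` and `q i` have no common factor. Then the Mumford-Tate
conjecture for `H^2(X)` (which is a statement on the classes in all tensor powers) holds if and only
if `T ⊗ ℚ_ℓ` is semisimple and the Tate classes in `T ⊗ T` (classes of degree four on `X × X`) are
combinations of the classes of the intersection forms of the `T_i` (all the Hodge classes in
`T ⊗ T`).  The only arithmetic fact used is the existence of the Hodge-Tate cocharacter in the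
monodromy group, with the Hodge numbers as multiplicities (theorems of Faltings and Sen).
-/

set_option autoImplicit false

namespace Pool.Agent.Results.MP_6369ef_ag.DegreeFourCriterion

open MvPolynomial Matrix
open Pool.Agent.W544.PG (HS BD)

noncomputable section

section groups

variable {ι : Type} [Fintype ι] [DecidableEq ι]

/-- The value of a rational polynomial in the entries at a matrix. -/
def value {R : Type} [CommRing R] [Algebra ℚ R] (g : Matrix ι ι R)
    (f : MvPolynomial (ι × ι) ℚ) : R :=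
  aeval (fun q : ι × ι => g q.1 q.2) f

/-- `G` is the set of complex points of an algebraic subgroup over `ℚ` of the general linear
group. -/
def IsQGroup (G : Set (Matrix ι ι ℂ)) : Prop :=
  (∃ P : Set (MvPolynomial (ι × ι) ℚ), ∀ g, g ∈ G ↔ g.det ≠ 0 ∧ ∀ f ∈ P, value g f = 0) ∧
  1 ∈ G ∧ (∀ a ∈ G, ∀ b ∈ G, a * b ∈ G) ∧ ∀ a ∈ G, a⁻¹ ∈ G

/-- The complex points of the Mumford-Tate group: the smallest algebraic subgroup over `ℚ` which
contains `h z` for all `z`. -/
def mumfordTate (h : ℂ → Matrix ι ι ℂ) : Set (Matrix ι ι ℂ) :=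
  {g | ∀ G, IsQGroup G → (∀ z, z ≠ 0 → h z ∈ G) → g ∈ G}

/-- The points of the Mumford-Tate group over a field `R`. -/
def InMumfordTate {R : Type} [Field R] [Algebra ℚ R] (h : ℂ → Matrix ι ι ℂ)
    (g : Matrix ι ι R) : Prop :=
  ∀ f : MvPolynomial (ι × ι) ℚ, (∀ m ∈ mumfordTate h, value m f = 0) → value g f = 0

variable {ℓ : ℕ} [Fact ℓ.Prime] {Γ : Type} [Group Γ]

/-- The points of the identity component of the Zariski closure of `ρ(Γ)` over the algebraic
closure of `ℚ_ℓ`: a polynomial that vanishes on the image of a subgroup of finite index vanishes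
at `g`. -/
def InMonodromy (ρ : Γ →* Matrix ι ι ℚ_[ℓ]) (g : Matrix ι ι (AlgebraicClosure ℚ_[ℓ])) : Prop :=
  ∀ f : MvPolynomial (ι × ι) (AlgebraicClosure ℚ_[ℓ]),
    (∃ Δ : Subgroup Γ, Δ.FiniteIndex ∧ ∀ s ∈ Δ,
      aeval (fun q : ι × ι => algebraMap ℚ_[ℓ] (AlgebraicClosure ℚ_[ℓ]) (ρ s q.1 q.2)) f = 0) →
    aeval (fun q : ι × ι => g q.1 q.2) f = 0

/-- The Mumford-Tate conjecture: the two groups agree over `ℚ_ℓ`. -/
def MumfordTateConjecture (h : ℂ → Matrix ι ι ℂ) (ρ : Γ →* Matrix ι ι ℚ_[ℓ]) : Prop :=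
  ∀ g : Matrix ι ι (AlgebraicClosure ℚ_[ℓ]), g.det ≠ 0 → (InMonodromy ρ g ↔ InMumfordTate h g)

end groups

variable {s n r : ℕ}

/-- The action of `ℂ^×` on `H^2(X)(1) = N ⊕ T`: it is trivial on `N` and multiplication by
`conj z / z`, `1`, `z / conj z` on the parts of `T` where `T.x` is `1`, `0`, `-1`. -/
def hodge (s : ℕ) (T : HS n) (z : ℂ) : Matrix (Fin s ⊕ Fin n) (Fin s ⊕ Fin n) ℂ :=
  fromBlocks 1 0 0 (1 + ((starRingEnd ℂ z / z - 1) / 2) • (T.x * T.x + T.x) +
    ((z / starRingEnd ℂ z - 1) / 2) • (T.x * T.x - T.x))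

variable {ℓ : ℕ} [Fact ℓ.Prime] {Γ : Type} [Group Γ]

/-- The representation `α ⊕ β` of the Galois group on `N ⊕ T`. -/
def galois (α : Γ →* Matrix (Fin s) (Fin s) ℚ_[ℓ]) (β : Γ →* Matrix (Fin n) (Fin n) ℚ_[ℓ]) :
    Γ →* Matrix (Fin s ⊕ Fin n) (Fin s ⊕ Fin n) ℚ_[ℓ] where
  toFun σ := fromBlocks (α σ) 0 0 (β σ)
  map_one' := (Pool.Agent.Y95.ZG.tot2 α β).map_one
  map_mul' := (Pool.Agent.Y95.ZG.tot2 α β).map_mul

/-- The intersection form over `ℚ_ℓ`. -/
def form (ℓ : ℕ) [Fact ℓ.Prime] (T : HS n) : Matrix (Fin n) (Fin n) ℚ_[ℓ] :=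
  T.Q.map (algebraMap ℚ ℚ_[ℓ])

/-- The Hodge-Tate cocharacter: the monodromy group contains a one-parameter group which is trivial
on `N` and acts on `T_i` with the eigenvalues `z`, `1`, `z⁻¹` of multiplicities `p i`, `q i`,
`p i` (`P`, `M` are the projections to the eigenspaces of `z` and `z⁻¹`). -/
def HodgeTate (c : Fin n → Fin r) (p : Fin r → ℕ) (α : Γ →* Matrix (Fin s) (Fin s) ℚ_[ℓ])
    (β : Γ →* Matrix (Fin n) (Fin n) ℚ_[ℓ]) : Prop :=
  ∃ P M : Matrix (Fin n) (Fin n) (AlgebraicClosure ℚ_[ℓ]),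
    P * P = P ∧ M * M = M ∧ P * M = 0 ∧ M * P = 0 ∧
    (∀ i, ∑ a with c a = i, P a a = (p i : AlgebraicClosure ℚ_[ℓ])) ∧
    (∀ i, ∑ a with c a = i, M a a = (p i : AlgebraicClosure ℚ_[ℓ])) ∧
    ∀ z : AlgebraicClosure ℚ_[ℓ], z ≠ 0 →
      InMonodromy (galois α β) (fromBlocks 1 0 0 (1 + (z - 1) • P + (z⁻¹ - 1) • M))

/-- The representation `β` is semisimple: stable subspaces have stable complements. -/
def Semisimple (β : Γ →* Matrix (Fin n) (Fin n) ℚ_[ℓ]) : Prop :=
  ∀ W : Submodule ℚ_[ℓ] (Fin n → ℚ_[ℓ]), (∀ σ, ∀ w ∈ W, β σ *ᵥ w ∈ W) →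
    ∃ W' : Submodule ℚ_[ℓ] (Fin n → ℚ_[ℓ]), (∀ σ, ∀ w ∈ W', β σ *ᵥ w ∈ W') ∧ IsCompl W W'

/-- The Tate classes in `T ⊗ T` are combinations of the classes of the intersection forms of the
`T_i`: every bilinear form on `T ⊗ ℚ_ℓ` that is invariant under a subgroup of finite index is a
combination of these forms. -/
def TateForms (T : HS n) (c : Fin n → Fin r) (β : Γ →* Matrix (Fin n) (Fin n) ℚ_[ℓ]) : Prop :=
  ∀ Δ : Subgroup Γ, Δ.FiniteIndex → ∀ F : Matrix (Fin n) (Fin n) ℚ_[ℓ],
    (∀ σ ∈ Δ, (β σ)ᵀ * F * β σ = F) →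
    ∃ z : Fin r → ℚ_[ℓ], ∀ a b, F a b = z (c a) * form ℓ T a b

/-- **The Mumford-Tate conjecture for `H^2(X)` holds if and only if `T ⊗ ℚ_ℓ` is semisimple and the
Tate classes in `T ⊗ T` are combinations of Hodge classes.** -/
theorem result (T : HS n) (c : Fin n → Fin r) (p q : Fin r → ℕ) (hT : T.Big c p q)
    (hpq : ∀ i, Nat.Coprime (p i) (q i))
    (α : Γ →* Matrix (Fin s) (Fin s) ℚ_[ℓ]) (hα : (Set.range α).Finite)
    (β : Γ →* Matrix (Fin n) (Fin n) ℚ_[ℓ])
    (hβ : ∀ σ, (β σ)ᵀ * form ℓ T * β σ = form ℓ T) (hc : ∀ σ, BD c (β σ))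
    (hHT : HodgeTate c p α β) :
    MumfordTateConjecture (hodge s T) (galois α β) ↔ Semisimple β ∧ TateForms T c β := by
  obtain ⟨P, M, h1, h2, h3, h4, h5, h6, h7⟩ := hHT
  have h8 := Pool.Agent.Y95.ZG.main_H2 (T := T) (c := c) (p := p) (q := q) (v := α) (β := β)
    (E := 0) (P := P) (N := M) hT hpq ⟨hβ, hc⟩
    ⟨by rw [Matrix.mul_zero], h1, h2, h3, h4, h5, h6, fun z hz => by
      rw [smul_zero, add_zero]; exact h7 z hz⟩ hα
  refine Iff.trans h8 (and_congr_right fun _ => ?_)
  exact Pool.Agent.Y95.ZG.Com_iff hT.bQ hβ hc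

end

end Pool.Agent.Results.MP_6369ef_ag.DegreeFourCriterion
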